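import Pool.Agent.U475.PL.All
import Pool.Agent.U475.PL.Two

/-!
# Chen's theorem in arbitrary dense sets of primes, with a sharp number of exceptions

Let `A` be an arbitrary set of primes `p ≤ X` which contains a positive proportion of them. With at most
`K log X / log log X` exceptions all the integers `N`, `|N| ≤ 2 X`, can be written as `N = p ± m s` for many elements
`p` of `A`, where `m` is at most a power of `log X` and `s` has at most two prime factors, both larger than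
`X ^ (1 / 7)`. This number of exceptions is sharp: every set of at most `c log X / log log X` nonzero integers is
exceptional for some set of almost all the primes up to `X`. If one allows `m ≤ X ^ ε`, there are at most `K`
exceptions (part (1), from the starting library; an earlier form of this part was written by helper607).
-/

set_option autoImplicit false

open Finset

namespace Pool.Agent.Results.MP_7b7e48_nt.DenseSetsSharpExceptions

/-- `s > 1`, and all the prime factors of `s` exceed `X ^ (1 / 7)` -/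
def Rough (X s : ℕ) : Prop := 1 < s ∧ ∀ q : ℕ, q.Prime → q ∣ s → (X : ℝ) ^ (1 / 7 : ℝ) < q

/-- `s` is rough and has one or two prime factors, counted with multiplicity -/
def AlmostPrime (X s : ℕ) : Prop := Rough X s ∧ s.primeFactorsList.length ≤ 2

/-- `|N - p| = m s` with a positive integer `m ≤ M` and an `s` with the property `S` -/
def Rep (M : ℝ) (S : ℕ → Prop) (N : ℤ) (p : ℕ) : Prop :=
  ∃ m s : ℕ, 1 ≤ m ∧ (m : ℝ) ≤ M ∧ S s ∧ (N - p).natAbs = m * s

/-- the integers `N`, `|N| ≤ 2 X`, for which fewer than `T` elements `p` of `A` satisfy `|N - p| = m s` with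
`m ≤ M` and an almost prime `s` -/
def exceptional (X : ℕ) (M T : ℝ) (A : Set ℕ) : Set ℤ :=
  {N : ℤ | |N| ≤ 2 * X ∧ (({p : ℕ | p ∈ A ∧ Rep M (AlmostPrime X) N p}.ncard : ℕ) : ℝ) < T}

/-- `X / log X` is large -/
lemma large (δ k : ℝ) (hδ : 0 < δ) (hk : 0 < k) :
    ∃ X1 : ℕ, 2 ≤ X1 ∧ ∀ X : ℕ, X1 ≤ X → δ / k ≤ δ * X / Real.log X := by
  have h := Real.isLittleO_log_id_atTop.bound hk
  obtain ⟨x0, hx0⟩ := Filter.eventually_atTop.1 h
  refine ⟨⌈x0⌉₊ + 2, by omega, fun X hX => ?_⟩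
  have hX2 : (2 : ℝ) ≤ X := by exact_mod_cast (by omega : 2 ≤ X)
  have h1 : x0 ≤ X := (Nat.le_ceil x0).trans (by exact_mod_cast (by omega : ⌈x0⌉₊ ≤ X))
  have h2 := hx0 X h1
  have hlog : 0 < Real.log X := Real.log_pos (by linarith)
  have h3 : Real.log X ≤ k * X := by
    have := h2
    simp only [id, Real.norm_eq_abs] at this
    rwa [abs_of_pos hlog, abs_of_pos (by linarith : (0:ℝ) < X)] at this
  rw [div_le_div_iff₀ hk hlog]
  calc δ * Real.log X ≤ δ * (k * X) := mul_le_mul_of_nonneg_left h3 hδ.le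
    _ = δ * X * k := by ring

/-- part (1) -/
theorem part1 (δ ε : ℝ) (hδ : 0 < δ) (hε : 0 < ε) :
    ∃ (c : ℝ) (K : ℕ), 0 < c ∧ ∀ X : ℕ, 2 ≤ X → ∀ A : Set ℕ,
      (∀ p ∈ A, p.Prime ∧ p ≤ X) → δ * X / Real.log X ≤ A.ncard →
      (exceptional X ((X : ℝ) ^ ε) (c * A.ncard) A).Finite ∧
        (exceptional X ((X : ℝ) ^ ε) (c * A.ncard) A).ncard ≤ K := by
  classical
  obtain ⟨c, K, hc, h⟩ := Pool.Agent.W23.DC.dense_almost_prime δ ε hδ hε
  obtain ⟨X1, hX1, hlarge⟩ := large δ (δ * c / 2) hδ (by positivity)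
  refine ⟨c / 2, max K (4 * X1 + 1), by positivity, ?_⟩
  intro X hX A hA hcard
  have hAfin : A.Finite := (Set.finite_Iic X).subset fun p hp => (hA p hp).2
  have hsub0 : exceptional X ((X : ℝ) ^ ε) (c / 2 * A.ncard) A ⊆
      ((Icc (-(2 * X : ℤ)) (2 * X) : Finset ℤ) : Set ℤ) := by
    intro N hN
    rw [mem_coe, mem_Icc]
    exact abs_le.1 hN.1
  have hfin : (exceptional X ((X : ℝ) ^ ε) (c / 2 * A.ncard) A).Finite := (finite_toSet _).subset hsub0
  refine ⟨hfin, ?_⟩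
  rcases lt_or_ge X X1 with hlt | hge
  · refine le_trans ?_ (le_max_right _ _)
    refine (Set.ncard_le_ncard hsub0 (finite_toSet _)).trans ?_
    rw [Set.ncard_coe_finset, Int.card_Icc]
    omega
  · refine le_trans ?_ (le_max_left _ _)
    obtain ⟨B, rfl⟩ : ∃ B : Finset ℕ, A = (B : Set ℕ) := ⟨hAfin.toFinset, by simp⟩
    have hB : ∀ p ∈ B, p.Prime ∧ p ≤ X := fun p hp => hA p (mem_coe.2 hp)
    rw [Set.ncard_coe_finset] at hcard hsub0 ⊢
    refine le_trans (le_of_le_of_eq (Set.ncard_le_ncard ?_ (finite_toSet _)) (Set.ncard_coe_finset _))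
      (h X hX B hB hcard)
    intro N hN
    have hN0 := hsub0 hN
    rw [mem_coe, mem_filter]
    refine ⟨hN0, ?_⟩
    have h2 := hN.2
    have hbig : 1 ≤ c / 2 * B.card := by
      have h3 := hlarge X hge
      have h4 : δ / (δ * c / 2) = 2 / c := by field_simp
      rw [h4] at h3
      have h5 : 2 / c ≤ (B.card : ℝ) := h3.trans hcard
      rw [div_le_iff₀ hc] at h5
      linarith
    have hle : ((B.filter (fun p : ℕ =>
        ∃ m s : ℕ, (N - p).natAbs = m * s ∧ (m : ℝ) ≤ (X : ℝ) ^ ε ∧ 1 < s ∧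
          s.primeFactorsList.length ≤ 2 ∧
          ∀ q ∈ s.primeFactors, (X : ℝ) ^ (1 / 7 : ℝ) < q)).card : ℝ) ≤
        (({p : ℕ | p ∈ (B : Set ℕ) ∧ Rep ((X : ℝ) ^ ε) (AlmostPrime X) N p}.ncard : ℕ) : ℝ) + 1 := by
      have hsubset : ((B.filter (fun p : ℕ =>
        ∃ m s : ℕ, (N - p).natAbs = m * s ∧ (m : ℝ) ≤ (X : ℝ) ^ ε ∧ 1 < s ∧
          s.primeFactorsList.length ≤ 2 ∧
          ∀ q ∈ s.primeFactors, (X : ℝ) ^ (1 / 7 : ℝ) < q) : Finset ℕ) : Set ℕ) ⊆
          insert N.toNat {p : ℕ | p ∈ (B : Set ℕ) ∧ Rep ((X : ℝ) ^ ε) (AlmostPrime X) N p} := by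
        intro p hp
        rw [mem_coe, mem_filter] at hp
        obtain ⟨hp1, m, s, h1, h2, h3, h4, h5⟩ := hp
        rcases Nat.eq_zero_or_pos m with hm | hm
        · left
          subst hm
          rw [Nat.zero_mul, Int.natAbs_eq_zero] at h1
          omega
        · right
          exact ⟨mem_coe.2 hp1, m, s, hm, h2, ⟨⟨h3, fun q hq hqs =>
            h5 q (Nat.mem_primeFactors.2 ⟨hq, hqs, by omega⟩)⟩, h4⟩, h1⟩
      have hf : {p : ℕ | p ∈ (B : Set ℕ) ∧ Rep ((X : ℝ) ^ ε) (AlmostPrime X) N p}.Finite :=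
        (finite_toSet B).subset fun p hp => hp.1
      have h6 := (Set.ncard_le_ncard hsubset (hf.insert _)).trans (Set.ncard_insert_le _ _)
      rw [Set.ncard_coe_finset] at h6
      exact_mod_cast h6
    linarith

/-- **(1)** For all `δ, ε > 0` there are `c > 0` and `K` such that for all `X ≥ 2` and every set `A` of primes `p ≤ X`
with at least `δ X / log X` elements: for all but at most `K` of the integers `N`, `|N| ≤ 2 X`, at least `c |A|` of
the elements `p` of `A` satisfy `|N - p| = m s`, where `1 ≤ m ≤ X ^ ε` and `s > 1` has at most two prime factors, both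
larger than `X ^ (1 / 7)`.
**(2)** For every `δ > 0` there are `c > 0`, `K` and `U` such that for all `X ≥ 3` and every such set `A`: for all but
at most `K log X / log log X` of the integers `N`, `|N| ≤ 2 X`, at least `c |A| log log X / log X` elements `p` of `A`
satisfy `|N - p| = m s`, `1 ≤ m ≤ (log X) ^ U`, with `s` as before; and for EVERY nonzero `N` at most
`C |A| log log X / log X` elements `p` of `A` do.
**(3)** For all `U` and `η > 0` there are `c > 0` and `X₀` such that for all `X ≥ X₀` and EVERY set `H` of at most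
`c log X / log log X` nonzero integers `N`, `|N| ≤ 2 X`, there is a set `A` which contains at least the proportion
`1 - η` of the primes up to `X`, such that `|N - p| = m s` is impossible for all `N ∈ H`, `p ∈ A`, `1 ≤ m ≤ (log X) ^ U`
and all `s > 1` (with any number of prime factors) whose prime factors exceed `X ^ (1 / 7)`. -/
theorem result :
    (∀ δ ε : ℝ, 0 < δ → 0 < ε → ∃ (c : ℝ) (K : ℕ), 0 < c ∧ ∀ X : ℕ, 2 ≤ X → ∀ A : Set ℕ,
      (∀ p ∈ A, p.Prime ∧ p ≤ X) → δ * X / Real.log X ≤ A.ncard →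
      (exceptional X ((X : ℝ) ^ ε) (c * A.ncard) A).Finite ∧
        (exceptional X ((X : ℝ) ^ ε) (c * A.ncard) A).ncard ≤ K) ∧
    (∀ δ : ℝ, 0 < δ → ∃ (c C K : ℝ) (U : ℕ), 0 < c ∧ ∀ X : ℕ, 3 ≤ X → ∀ A : Set ℕ,
      (∀ p ∈ A, p.Prime ∧ p ≤ X) → δ * X / Real.log X ≤ A.ncard →
      (exceptional X (Real.log X ^ U) (c * (Real.log (Real.log X) / Real.log X) * A.ncard) A).Finite ∧
        ((exceptional X (Real.log X ^ U) (c * (Real.log (Real.log X) / Real.log X) * A.ncard) A).ncard : ℝ) ≤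
          K * (Real.log X / Real.log (Real.log X)) ∧
        ∀ N : ℤ, N ≠ 0 → |N| ≤ 2 * X →
          (({p : ℕ | p ∈ A ∧ Rep (Real.log X ^ U) (AlmostPrime X) N p}.ncard : ℕ) : ℝ) ≤
            C * (Real.log (Real.log X) / Real.log X) * A.ncard) ∧
    (∀ (U : ℕ) (η : ℝ), 0 < η → ∃ (c : ℝ) (X₀ : ℕ), 0 < c ∧ ∀ X : ℕ, X₀ ≤ X → ∀ H : Set ℤ,
      (∀ N ∈ H, N ≠ 0 ∧ |N| ≤ 2 * X) → (H.ncard : ℝ) ≤ c * (Real.log X / Real.log (Real.log X)) →
      ∃ A : Set ℕ, (∀ p ∈ A, p.Prime ∧ p ≤ X) ∧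
        (1 - η) * ({p : ℕ | p.Prime ∧ p ≤ X}.ncard : ℝ) ≤ (A.ncard : ℝ) ∧
        ∀ N ∈ H, ∀ p ∈ A, ¬ Rep (Real.log X ^ U) (Rough X) N p) := by
  classical
  refine ⟨fun δ ε hδ hε => part1 δ ε hδ hε, ?_, ?_⟩
  · intro δ hδ
    obtain ⟨c, K, U, hc, hK, H⟩ := Pool.Agent.U475.PL.dense δ hδ
    obtain ⟨C, hC, HC⟩ := Pool.Agent.U475.PL.upper_A Pool.Agent.U475.PL.UBS_thm Pool.Agent.U475.PL.VLB_thm U δ hδ
    refine ⟨c, C, K, U, hc, fun X hX A hA hcard => ?_⟩
    have hAfin : A.Finite := (Set.finite_Iic X).subset fun p hp => (hA p hp).2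
    obtain ⟨B, rfl⟩ : ∃ B : Finset ℕ, A = (B : Set ℕ) := ⟨hAfin.toFinset, by simp⟩
    have hB : ∀ p ∈ B, p.Prime ∧ p ≤ X := fun p hp => hA p (mem_coe.2 hp)
    rw [Set.ncard_coe_finset] at hcard ⊢
    have key := H X hX B hB hcard
    have hsub : exceptional X (Real.log X ^ U) (c * (Real.log (Real.log X) / Real.log X) * B.card) (B : Set ℕ) ⊆
        (((Icc (-(2 * X : ℤ)) (2 * X)).filter (fun a : ℤ =>
        ((B.filter (fun p => Pool.Agent.U475.PL.Rep' X U a p Pool.Agent.U475.PL.AP2)).card : ℝ) <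
          c * (Real.log (Real.log X) / Real.log X) * B.card) : Finset ℤ) : Set ℤ) := by
      rintro N ⟨h1, h2⟩
      rw [mem_coe, mem_filter, mem_Icc]
      refine ⟨abs_le.1 h1, ?_⟩
      refine lt_of_le_of_lt ?_ h2
      have h4 : ((B.filter (fun p => Pool.Agent.U475.PL.Rep' X U N p Pool.Agent.U475.PL.AP2) : Finset ℕ) : Set ℕ) ⊆
          {p : ℕ | p ∈ (B : Set ℕ) ∧ Rep (Real.log X ^ U) (AlmostPrime X) N p} := by
        intro p hp
        rw [mem_coe, mem_filter] at hp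
        obtain ⟨hpB, m, s, g1, g2, g3, g4, g5, g6⟩ := hp
        exact ⟨mem_coe.2 hpB, m, s, g1, g2, ⟨⟨g3, g6⟩, g5⟩, g4⟩
      have h5 := Set.ncard_le_ncard h4 ((finite_toSet B).subset fun p hp => hp.1)
      rw [Set.ncard_coe_finset] at h5
      exact_mod_cast h5
    refine ⟨(finite_toSet _).subset hsub, ?_, ?_⟩
    · refine le_trans ?_ key
      have h5 := Set.ncard_le_ncard hsub (finite_toSet _)
      rw [Set.ncard_coe_finset] at h5
      exact_mod_cast h5
    · intro N hN hN2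
      refine le_trans ?_ (HC X hX B hB hcard N hN (by exact_mod_cast hN2))
      have h4 : {p : ℕ | p ∈ (B : Set ℕ) ∧ Rep (Real.log X ^ U) (AlmostPrime X) N p} ⊆
          ((B.filter (fun p => Pool.Agent.U475.PL.Rep' X U N p (fun _ => True)) : Finset ℕ) : Set ℕ) := by
        rintro p ⟨hp, m, s, g1, g2, ⟨⟨g3, g4⟩, -⟩, g5⟩
        rw [mem_coe, mem_filter]
        exact ⟨mem_coe.1 hp, m, s, g1, g2, g3, g5, trivial, g4⟩
      have h5 := Set.ncard_le_ncard h4 (finite_toSet _)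
      rw [Set.ncard_coe_finset] at h5
      exact_mod_cast h5
  · intro U η hη
    obtain ⟨c, X₀, hc, H⟩ := Pool.Agent.U475.PL.sharp_thm U η hη
    refine ⟨c, X₀, hc, fun X hX S hS hcard => ?_⟩
    have hSfin : S.Finite := (Set.finite_Icc (-(2 * X : ℤ)) (2 * X)).subset fun h hh =>
      abs_le.1 (hS h hh).2
    obtain ⟨T, rfl⟩ : ∃ T : Finset ℤ, S = (T : Set ℤ) := ⟨hSfin.toFinset, by simp⟩
    rw [Set.ncard_coe_finset] at hcard
    obtain ⟨A, hA1, hA2, hA3⟩ := H X hX T (fun h hh => ⟨(hS h (mem_coe.2 hh)).1, by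
      exact_mod_cast (hS h (mem_coe.2 hh)).2⟩) hcard
    refine ⟨(A : Set ℕ), fun p hp => hA1 p (mem_coe.1 hp), ?_, ?_⟩
    · rw [Set.ncard_coe_finset]
      have h2 : {p : ℕ | p.Prime ∧ p ≤ X} = (((Icc 1 X).filter Nat.Prime : Finset ℕ) : Set ℕ) := by
        ext p
        rw [mem_coe, mem_filter, mem_Icc, Set.mem_ofPred_eq]
        constructor
        · rintro ⟨h3, h4⟩
          exact ⟨⟨h3.one_le, h4⟩, h3⟩
        · rintro ⟨⟨-, h4⟩, h3⟩
          exact ⟨h3, h4⟩
      rw [h2, Set.ncard_coe_finset]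
      exact hA2
    · intro N hN p hp hd
      obtain ⟨m, s, g1, g2, ⟨g3, g4⟩, g5⟩ := hd
      exact hA3 N (mem_coe.1 hN) p (mem_coe.1 hp) ⟨m, s, g1, g2, g3, g5, trivial, g4⟩

end Pool.Agent.Results.MP_7b7e48_nt.DenseSetsSharpExceptions
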