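import Pool.Agent.U325.PB.Form

set_option autoImplicit false

/-!
# The parity barrier for Goldbach's conjecture: all sieves of dimension at most two, with switching

All known results of sieve type on `N = m + n` (Brun, Selberg, Chen) bound the indicator function of
the wanted pairs `(m, n)` by a combination of sieve functions, sums of `ρ(d, e)` over `d ∣ m`, `e ∣ n`,
and of products of such functions with given functions of one of the summands: in Chen's theorem the
given functions are the indicator function of the primes (the sieve is applied to `n = N - p`) and, by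
the switching principle, that of certain products `p₁p₂p₃` (the sieve is applied to `m = N - p₁p₂p₃`).
The sum of the combination over the line `m + n = N` is then computed from the distribution of the
given functions in residue classes.

The theorem says that for almost all `N` no argument of this kind can show that `N` is a sum of two
primes, whatever is known about the distribution in residue classes to all moduli up to
`N exp (-(log N) ^ δ)`: if such a combination is `≤ 0` at all pairs with `Ω(m) + Ω(n)` odd (none of them
consists of two primes), then its true sum over the line is at most `N / (log N) ^ A`, while almost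
all even `N` have `≫ N / (log N) ^ 2` representations. In the same way every upper bound obtained by such
an argument is larger than the true number of representations by the factor `2 - o(1)`. The weights of
the sieves may depend on `N` and are arbitrary. The given functions are arbitrary bounded functions
(they may also depend on the divisor `d`), any power of `log N` of them. Since an argument which works
for all large even `N` works for almost all of them, Goldbach's conjecture cannot be proved in this way.

Idea of the proof. Let `λ` be the function of Liouville. It is shown that, for almost all `N`, the sum of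
`λ(m) λ(n)` times the combination over the line is small. The mean square over `N` of the sum of
`a(m) λ(m) λ(n)` over `m + n = N`, `d ∣ m`, `e ∣ n` is a sum of products of autocorrelations at the
multiples of `[d, e]`; those of `λ` on the multiples of `e` are expressed by the exponential sum of `λ` at
all fractions with the denominator `d`, translated, and are small on average over `d` by the large
sieve (large reduced denominators) and Davenport's bound (small ones).
-/

namespace Pool.Agent.Results.MP_7b7e48_nt.ParityBarrier

open Finset
open Pool.Agent.U325.PB (IsBiweight comb)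
open ArithmeticFunction (cardFactors)

/-- Let `A`, `C` be natural numbers and `δ > 0`. For all large `X` and all functions `a_k(d, m)` with
values in `[-1, 1]`, `k ≤ K`, `K ≤ (log X) ^ C`, all `N ≤ X` but at most `X / (log X) ^ A` have the
following property. Let `F(m, n)` be the sum over `k` of `∑_{d ∣ m, e ∣ n} ρ_k(d, e) a_k(d, m)` and
`∑_{d ∣ n, e ∣ m} σ_k(d, e) a_k(d, n)`, with ANY sieve weights `ρ_k`, `σ_k` of level
`X exp (-(log X) ^ δ)` (they may depend on `N`).
(0) The sum of `(-1) ^ (Ω(m) + Ω(n)) F(m, n)` over all `m, n ≥ 1`, `m + n = N`, is at most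
`X / (log X) ^ A` in absolute value.
(1) If `F(m, n) ≤ 0` for all these pairs with `Ω(m) + Ω(n)` odd, then the sum of `F(m, n)` over all the
pairs is at most `X / (log X) ^ A`.
(2) If `F(m, n) ≥ 0` for all these pairs, and `F(m, n) ≥ 1` if `m` and `n` are prime, then the sum of
`F(m, n)` is at least twice the number of the pairs of primes, minus `X / (log X) ^ A`. -/
theorem result (A C : ℕ) (δ : ℝ) (hδ : 0 < δ) :
    ∃ X₀ : ℕ, ∀ X : ℕ, X₀ ≤ X → ∀ (K : ℕ) (a : Fin K → ℕ → ℕ → ℝ), (K : ℝ) ≤ Real.log X ^ C →
      (∀ k d m, |a k d m| ≤ 1) →
    ∃ E : Finset ℕ, (E.card : ℝ) ≤ X / Real.log X ^ A ∧ ∀ N : ℕ, N ≤ X → N ∉ E →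
      ∀ ρ σ : Fin K → ℕ → ℕ → ℝ, (∀ k, IsBiweight C δ X (ρ k)) → (∀ k, IsBiweight C δ X (σ k)) →
      |∑ m ∈ Ico 1 N, (-1 : ℝ) ^ (cardFactors m + cardFactors (N - m)) * comb a ρ σ m (N - m)| ≤
        X / Real.log X ^ A ∧
      ((∀ m ∈ Ico 1 N, Odd (cardFactors m + cardFactors (N - m)) → comb a ρ σ m (N - m) ≤ 0) →
        ∑ m ∈ Ico 1 N, comb a ρ σ m (N - m) ≤ X / Real.log X ^ A) ∧
      ((∀ m ∈ Ico 1 N, 0 ≤ comb a ρ σ m (N - m)) →
        (∀ m ∈ Ico 1 N, m.Prime → (N - m).Prime → 1 ≤ comb a ρ σ m (N - m)) →
        2 * (((Ico 1 N).filter fun m => m.Prime ∧ (N - m).Prime).card : ℝ) - X / Real.log X ^ A ≤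
          ∑ m ∈ Ico 1 N, comb a ρ σ m (N - m)) := by
  obtain ⟨X₀, hX₀⟩ := Pool.Agent.U325.PB.few_two A C δ hδ
  refine ⟨X₀, fun X hX K a hK ha => ?_⟩
  obtain ⟨E, hE, hN⟩ := hX₀ X hX K a hK ha
  refine ⟨E, hE, fun N hNX hNE ρ σ hρ hσ => ?_⟩
  set B : ℝ := X / Real.log X ^ A with hB
  have h0 : |∑ m ∈ Ico 1 N, (-1 : ℝ) ^ (cardFactors m + cardFactors (N - m)) * comb a ρ σ m (N - m)| ≤ B := by
    have h1 := (Pool.Agent.U325.PB.comb_bound a ρ σ hρ hσ N).trans (hN N hNX hNE)
    refine le_trans (le_of_eq ?_) h1
    congr 1
    refine sum_congr rfl fun m _ => ?_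
    unfold Pool.Agent.U325.PB.lam
    rw [pow_add]
  obtain ⟨hlow, hup⟩ := abs_le.1 h0
  refine ⟨h0, fun h => ?_, fun h1 h2 => ?_⟩
  · -- lower bounds
    have h3 : ∑ m ∈ Ico 1 N, comb a ρ σ m (N - m) ≤
        ∑ m ∈ Ico 1 N, (-1 : ℝ) ^ (cardFactors m + cardFactors (N - m)) * comb a ρ σ m (N - m) := by
      refine sum_le_sum fun m hm => ?_
      rcases Nat.even_or_odd (cardFactors m + cardFactors (N - m)) with he | ho
      · rw [he.neg_one_pow, one_mul]
      · rw [ho.neg_one_pow]
        have := h m hm ho
        linarith
    exact h3.trans hup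
  · -- upper bounds
    have h3 : 2 * (((Ico 1 N).filter fun m => m.Prime ∧ (N - m).Prime).card : ℝ) ≤
        ∑ m ∈ Ico 1 N, (comb a ρ σ m (N - m) +
          (-1 : ℝ) ^ (cardFactors m + cardFactors (N - m)) * comb a ρ σ m (N - m)) := by
      have e1 : 2 * (((Ico 1 N).filter fun m => m.Prime ∧ (N - m).Prime).card : ℝ) =
          ∑ m ∈ Ico 1 N, if m.Prime ∧ (N - m).Prime then (2 : ℝ) else 0 := by
        rw [← sum_filter, sum_const, nsmul_eq_mul]
        ring
      rw [e1]
      refine sum_le_sum fun m hm => ?_
      have hF := h1 m hm
      by_cases hp : m.Prime ∧ (N - m).Prime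
      · rw [if_pos hp]
        have hF1 := h2 m hm hp.1 hp.2
        rw [ArithmeticFunction.cardFactors_apply_prime hp.1, ArithmeticFunction.cardFactors_apply_prime hp.2]
        norm_num
        linarith
      · rw [if_neg hp]
        rcases neg_one_pow_eq_or ℝ (cardFactors m + cardFactors (N - m)) with h4 | h4 <;> rw [h4] <;> linarith
    rw [sum_add_distrib] at h3
    linarith

end Pool.Agent.Results.MP_7b7e48_nt.ParityBarrier
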