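import Pool.Agent.U28.SF.SF11
import Pool.Agent.Results.MP_33f996_nt.EveryModulusSevenTenths

set_option autoImplicit false

/-!
# Goldbach partitions in all short intervals: dense subsets and narrow progressions

Let `M n` be the set of the primes `q < n` for which `2 n - q` is prime (so `g(n) = |M n|` in the problem). It is known
(starting library) that in every residue class modulo every `q ≤ x ^ (7 / 10 - ρ)` almost all `n ≤ x` have at least
`1 / 21` of the expected number of these primes. Here we show how the primes of `M n` are distributed, for EVERY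
large `n` which has a positive proportion of the expected number: for a positive proportion of the integers `x ≤ n` ALL
intervals `(x, x + H]`, `H ≤ n`, with at least one expected prime contain the right order of them; the same for every
subset `A` of positive relative density, and even for the elements of `A` which are the first of `m` terms of an
arithmetic progression in `A` with difference at most a power of `log n`.

Proof: the primes in question avoid the classes `0` and `2 n` modulo all small primes; for an arbitrary sifted set a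
second moment at the mean spacing and a covering argument transfer counts to all short intervals
(`Pool.Agent.U28.SF`, `sifted_all`, `sifted_ap`), uniformly in the classes; Szemerédi's theorem for sifted sets is from
the starting library.
-/

namespace Pool.Agent.Results.MP_7b7e48_nt.PartitionsInAllShortIntervals

open Finset Filter
open Pool.Agent.H560R3.GB (sing)
open Pool.Agent.Results.MP_33f996_nt.EveryModulusSevenTenths (Holds reps expected)
open Pool.Agent.Results.MP_33f996_nt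

/-- the primes `q < n` for which `2 n - q` is prime -/
def M (n : ℕ) : Finset ℕ := (range n).filter (fun q : ℕ => q.Prime ∧ (2 * n - q).Prime)

/-- the expected density of `M n` -/
noncomputable def dens (n : ℕ) : ℝ := sing (2 * n) / Real.log (2 * n) ^ 2

/-- `p` is the first of `m` terms of an arithmetic progression in `A` with difference between `1` and `D` -/
def FirstTerm (m : ℕ) (D : ℝ) (A : Finset ℕ) (p : ℕ) : Prop :=
  ∃ d : ℕ, 1 ≤ d ∧ (d : ℝ) ≤ D ∧ ∀ j < m, p + j * d ∈ A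

open Classical in
/-- At least `κ n` of the integers `0 ≤ x ≤ n` are such that for ALL natural numbers `H ≤ n` with `dens n * H ≥ 1` the
interval `(x, x + H]` contains at least `κ * dens n * H` integers with the property `Q`. -/
def Everywhere (κ : ℝ) (n : ℕ) (Q : ℕ → Prop) : Prop :=
  κ * n ≤ (((range (n + 1)).filter (fun x => ∀ H : ℕ, 1 ≤ dens n * H → H ≤ n →
    κ * (dens n * H) ≤ (((Ioc x (x + H)).filter Q).card : ℝ))).card : ℝ)

/-- `M n` has at least `1 / 21` of the expected number of elements, and every subset `A` of relative density `θ`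
satisfies `Everywhere` for the first terms of the progressions of `m` terms in `A` with difference at most
`(log n) ^ B`. -/
def Good (m : ℕ) (θ κ : ℝ) (B n : ℕ) : Prop :=
  dens n * n / 21 ≤ (M n).card ∧ ∀ A ⊆ M n, θ * (M n).card ≤ A.card →
    Everywhere κ n (FirstTerm m (Real.log n ^ B) A)

/-- the integers `0 < n ≤ x` with `n ≡ a (mod q)` for which this is false -/
def exceptional (m : ℕ) (θ κ : ℝ) (B : ℕ) (x : ℝ) (q : ℕ) (a : ℤ) : Set ℕ :=
  {n : ℕ | 0 < n ∧ (n : ℝ) ≤ x ∧ (n : ℤ) ≡ a [ZMOD q] ∧ ¬ Good m θ κ B n}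

lemma sqrt_le (δ : ℝ) (hδ : 0 < δ) : ∃ n₀ : ℕ, ∀ n : ℕ, n₀ ≤ n → √(2 * (n : ℝ)) ≤ δ * (dens n * n) := by
  have hlo := (isLittleO_log_rpow_rpow_atTop (2 : ℝ) (show (0 : ℝ) < 1 / 2 by norm_num)).bound
    (show (0 : ℝ) < δ / 2 by positivity)
  obtain ⟨x₁, hx₁⟩ := eventually_atTop.1 hlo
  refine ⟨⌈x₁⌉₊ + 2, fun n hn => ?_⟩
  have hn2 : (2 : ℝ) ≤ n := by exact_mod_cast (by omega : 2 ≤ n)
  have hnx : x₁ ≤ 2 * (n : ℝ) := by
    have h1 : x₁ ≤ ⌈x₁⌉₊ := Nat.le_ceil x₁
    have h2 : ((⌈x₁⌉₊ : ℕ) : ℝ) ≤ n := by exact_mod_cast (by omega : ⌈x₁⌉₊ ≤ n)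
    linarith
  have h3 := hx₁ (2 * (n : ℝ)) hnx
  have hlog : 0 < Real.log (2 * (n : ℝ)) := Real.log_pos (by linarith)
  have h2n : 0 < 2 * (n : ℝ) := by linarith
  rw [Real.norm_of_nonneg (by positivity), Real.norm_of_nonneg (by positivity), ← Real.sqrt_eq_rpow,
    Real.rpow_two] at h3
  have hs := Pool.Agent.R460.GS.one_le_sing (2 * n)
  have hsq : √(2 * (n : ℝ)) * √(2 * (n : ℝ)) = 2 * n := Real.mul_self_sqrt h2n.le
  have hr0 : 0 < √(2 * (n : ℝ)) := Real.sqrt_pos.2 h2n
  have h4 : √(2 * (n : ℝ)) * Real.log (2 * (n : ℝ)) ^ 2 ≤ δ * n := by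
    calc √(2 * (n : ℝ)) * Real.log (2 * (n : ℝ)) ^ 2 ≤ √(2 * (n : ℝ)) * (δ / 2 * √(2 * (n : ℝ))) :=
          mul_le_mul_of_nonneg_left h3 hr0.le
      _ = δ / 2 * (√(2 * (n : ℝ)) * √(2 * (n : ℝ))) := by ring
      _ = δ * n := by rw [hsq]; ring
  have h5 : √(2 * (n : ℝ)) ≤ δ * n / Real.log (2 * (n : ℝ)) ^ 2 := by
    rw [le_div_iff₀ (by positivity)]
    exact h4
  refine h5.trans ?_
  unfold dens
  have e : δ * (sing (2 * n) / Real.log (2 * (n : ℝ)) ^ 2 * n) = sing (2 * n) * (δ * n / Real.log (2 * (n : ℝ)) ^ 2) := by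
    ring
  rw [e]
  exact le_mul_of_one_le_left (by positivity) hs

theorem all_of_dense (m : ℕ) (δ : ℝ) (hδ : 0 < δ) : ∃ κ : ℝ, 0 < κ ∧ ∃ B n₀ : ℕ, ∀ n : ℕ, n₀ ≤ n →
    ∀ A ⊆ M n, δ * (dens n * n) ≤ (A.card : ℝ) → Everywhere κ n (FirstTerm m (Real.log n ^ B) A) := by
  classical
  obtain ⟨κ, hκ, B, h⟩ := Pool.Agent.U28.SF.goldbach_all m (δ / 2) (by positivity)
  obtain ⟨n₀, h0⟩ := eventually_atTop.1 h
  obtain ⟨n₁, h1⟩ := sqrt_le (δ / 2) (by positivity)
  refine ⟨κ, hκ, B, max n₀ n₁, fun n hn A hA hAc => ?_⟩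
  have hn0 : n₀ ≤ n := (le_max_left _ _).trans hn
  have hn1 : n₁ ≤ n := (le_max_right _ _).trans hn
  have hs : 0 < sing (2 * n) := lt_of_lt_of_le one_pos (Pool.Agent.R460.GS.one_le_sing (2 * n))
  have hMmem : ∀ q ∈ A, q < n ∧ q.Prime ∧ (2 * n - q).Prime := by
    intro q hq
    have := hA hq
    unfold M at this
    rw [mem_filter, mem_range] at this
    exact ⟨this.1, this.2⟩
  set A' : Finset ℕ := A.filter (fun q : ℕ => √(2 * (n : ℝ)) < (q : ℝ)) with hA'
  have hA'c : δ / 2 * (dens n * n) ≤ (A'.card : ℝ) := by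
    have k1 : A ⊆ A' ∪ Icc 1 ⌊√(2 * (n : ℝ))⌋₊ := by
      intro q hq
      rw [mem_union, hA', mem_filter, mem_Icc]
      by_cases hx : √(2 * (n : ℝ)) < (q : ℝ)
      · exact Or.inl ⟨hq, hx⟩
      · exact Or.inr ⟨(hMmem q hq).2.1.one_lt.le, Nat.le_floor (not_lt.1 hx)⟩
    have k2 : (A.card : ℝ) ≤ A'.card + ⌊√(2 * (n : ℝ))⌋₊ := by
      have e1 := (card_le_card k1).trans (card_union_le _ _)
      rw [Nat.card_Icc, Nat.add_sub_cancel] at e1
      exact_mod_cast e1
    have k3 : (⌊√(2 * (n : ℝ))⌋₊ : ℝ) ≤ √(2 * (n : ℝ)) := Nat.floor_le (Real.sqrt_nonneg _)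
    have k4 := h1 n hn1
    linarith
  have key := h0 n hn0 hs A' (by
    intro q hq
    obtain ⟨hq1, hq2⟩ := mem_filter.1 hq
    obtain ⟨b1, b2, b3⟩ := hMmem q hq1
    unfold Pool.Agent.U28.SF.Parts
    rw [mem_filter, mem_range]
    exact ⟨b1, b2, hq2, b3⟩) (by
    refine le_trans (le_of_eq ?_) hA'c
    unfold dens
    ring)
  exact Pool.Agent.U28.PG.AllLengths.mono' (by
    rintro p ⟨d, hd1, hd2, hd3⟩
    exact ⟨d, hd1, hd2, fun j hj => (mem_filter.1 (hd3 j hj)).1⟩) key

/-- **Goldbach partitions in all short intervals.**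

1. For all `m` and `δ > 0` there are `κ > 0` and `B` such that for ALL large `n` every set `A ⊆ M n` with at least
`δ * dens n * n` elements satisfies `Everywhere κ n (FirstTerm m ((log n) ^ B) A)` (for `m = 1` and `A = M n`: if `2 n`
has the right order of partitions, then they are in all short intervals at a positive proportion of the places).
2. For all `m` and `θ > 0` there are `κ > 0` and `B` such that for all `ρ > 0`, `E`, `T` and all large `x`: for EVERY
`1 ≤ q ≤ x ^ (7 / 10 - ρ)` and every integer `a` with `gcd(a, q) ≤ (log x) ^ T`, all but at most `x / (q (log x) ^ E)` of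
the `0 < n ≤ x`, `n ≡ a (mod q)`, satisfy `Good m θ κ B n`. -/
theorem result :
    (∀ (m : ℕ) (δ : ℝ), 0 < δ → ∃ κ : ℝ, 0 < κ ∧ ∃ B n₀ : ℕ, ∀ n : ℕ, n₀ ≤ n →
      ∀ A ⊆ M n, δ * (dens n * n) ≤ (A.card : ℝ) → Everywhere κ n (FirstTerm m (Real.log n ^ B) A)) ∧
    ∀ (m : ℕ) (θ : ℝ), 0 < θ → ∃ κ : ℝ, 0 < κ ∧ ∃ B : ℕ, ∀ ρ : ℝ, 0 < ρ → ∀ E T : ℕ,
      ∃ x₀ : ℝ, ∀ x : ℝ, x₀ ≤ x → ∀ q : ℕ, 1 ≤ q → (q : ℝ) ≤ x ^ (7 / 10 - ρ) →
        ∀ a : ℤ, (Int.gcd a q : ℝ) ≤ Real.log x ^ T →
          (exceptional m θ κ B x q a).Finite ∧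
            ((exceptional m θ κ B x q a).ncard : ℝ) ≤ x / (q * Real.log x ^ E) := by
  refine ⟨all_of_dense, fun m θ hθ => ?_⟩
  obtain ⟨κ, hκ, B, n₀, h0⟩ := all_of_dense m (θ / 21) (by positivity)
  refine ⟨κ, hκ, B, fun ρ hρ E T => ?_⟩
  obtain ⟨x₀, hx₀⟩ := EveryModulusSevenTenths.result ρ hρ (E + 1) T
  have hgood : ∀ n : ℕ, n₀ ≤ n → Holds n → Good m θ κ B n := by
    intro n hn hH
    have h1 : expected n / 21 ≤ reps n := hH.2
    have e1 : expected n = dens n * n := by
      unfold expected dens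
      ring
    have e2 : (reps n : ℝ) ≤ (M n).card := by
      rw [Nat.cast_le]
      unfold reps M
      apply card_le_card
      intro p hp
      rw [mem_filter] at hp ⊢
      exact ⟨hp.1, hp.2.1, hp.2.2.2⟩
    rw [e1] at h1
    replace h1 := h1.trans e2
    refine ⟨h1, fun A hA hAc => h0 n hn A hA ?_⟩
    calc θ / 21 * (dens n * n) = θ * (dens n * n / 21) := by ring
      _ ≤ θ * (M n).card := by gcongr
      _ ≤ _ := hAc
  have hlo := (isLittleO_log_rpow_rpow_atTop (E : ℝ) (show (0 : ℝ) < 3 / 10 by norm_num)).bound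
    (show (0 : ℝ) < 1 / (2 * (n₀ + 1)) by positivity)
  obtain ⟨x₁, hx₁⟩ := eventually_atTop.1 hlo
  refine ⟨max (max x₀ x₁) (Real.exp 2), fun x hx q hq hqx a ha => ?_⟩
  have hxa : x₀ ≤ x := (le_max_left _ _).trans ((le_max_left _ _).trans hx)
  have hxb := hx₁ x ((le_max_right _ _).trans ((le_max_left _ _).trans hx))
  have hx2 : Real.exp 2 ≤ x := (le_max_right _ _).trans hx
  have hx0 : 0 < x := lt_of_lt_of_le (Real.exp_pos _) hx2
  have hl2 : 2 ≤ Real.log x := by rw [Real.le_log_iff_exp_le hx0]; exact hx2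
  have hx1 : 1 ≤ x := by
    have := Real.add_one_le_exp (2 : ℝ)
    linarith
  have hq0 : (0 : ℝ) < q := by exact_mod_cast hq
  obtain ⟨f1, f2⟩ := hx₀ x hxa q hq hqx a ha
  have hsub : exceptional m θ κ B x q a ⊆ EveryModulusSevenTenths.exceptional x q a ∪ Set.Iio n₀ := by
    rintro n ⟨e1, e2, e3, e4⟩
    by_cases hn : n < n₀
    · exact Or.inr hn
    · exact Or.inl ⟨e1, e2, e3, fun hH => e4 (hgood n (not_lt.1 hn) hH)⟩
  have hfin : (EveryModulusSevenTenths.exceptional x q a ∪ Set.Iio n₀).Finite := f1.union (Set.finite_Iio n₀)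
  refine ⟨hfin.subset hsub, ?_⟩
  have h1 : ((exceptional m θ κ B x q a).ncard : ℝ) ≤ (EveryModulusSevenTenths.exceptional x q a).ncard + n₀ := by
    have g1 := Set.ncard_le_ncard hsub hfin
    have g2 := Set.ncard_union_le (EveryModulusSevenTenths.exceptional x q a) (Set.Iio n₀)
    have g3 : (Set.Iio n₀).ncard = n₀ := by
      rw [← Finset.coe_Iio, Set.ncard_coe_finset, Nat.card_Iio]
    rw [g3] at g2
    exact_mod_cast g1.trans g2
  have hLE : (0 : ℝ) < Real.log x ^ E := by positivity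
  have h2 : (n₀ : ℝ) ≤ x / (q * Real.log x ^ E) / 2 := by
    rw [Real.rpow_natCast, Real.norm_of_nonneg hLE.le, Real.norm_of_nonneg (by positivity)] at hxb
    have g1 : (q : ℝ) ≤ x ^ (7 / 10 : ℝ) := hqx.trans (Real.rpow_le_rpow_of_exponent_le hx1 (by linarith))
    have g2 : x = x ^ (7 / 10 : ℝ) * x ^ (3 / 10 : ℝ) := by
      rw [← Real.rpow_add hx0]
      norm_num
    rw [div_div, le_div_iff₀ (by positivity)]
    have g3 : 2 * ((n₀ : ℝ) + 1) * Real.log x ^ E ≤ x ^ (3 / 10 : ℝ) := by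
      rw [one_div, inv_mul_eq_div, le_div_iff₀ (by positivity)] at hxb
      linarith
    have g4 : 0 ≤ x ^ (7 / 10 : ℝ) := by positivity
    calc (n₀ : ℝ) * (q * Real.log x ^ E * 2) = q * (2 * n₀ * Real.log x ^ E) := by ring
      _ ≤ x ^ (7 / 10 : ℝ) * (2 * (n₀ + 1) * Real.log x ^ E) := by
          apply mul_le_mul g1 _ (by positivity) g4
          gcongr
          linarith
      _ ≤ x ^ (7 / 10 : ℝ) * x ^ (3 / 10 : ℝ) := mul_le_mul_of_nonneg_left g3 g4
      _ = x := g2.symm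
  have h3 : x / (q * Real.log x ^ (E + 1)) ≤ x / (q * Real.log x ^ E) / 2 := by
    rw [div_div]
    apply div_le_div_of_nonneg_left hx0.le (by positivity)
    rw [pow_succ, mul_assoc]
    gcongr
  linarith

end Pool.Agent.Results.MP_7b7e48_nt.PartitionsInAllShortIntervals
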