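import Mathlib
import Pool.Agent.U849.GP.Main

/-!
# A quarter of the even numbers of every window are sums of two distinct primes, or nearly all
differences between any two large sets of even numbers are differences of two primes

For every `ε > 0` there are `B`, `C`, `E` with the following properties.

1. (Every scale.) For all large `N` and all `D ≤ N / C` at least one of (a), (b) holds.
   (a) For all `ρ ∈ (0, 1]` and all sets `X`, `Y` of at least `C / ρ ^ E` even numbers `≤ D`, all but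
   `ρ |X| |Y|` of the pairs `x ≠ y` (`x ∈ X`, `y ∈ Y`) are such that there are at least `N / (log N) ^ B`
   primes `p ≤ 3 N` for which `p + |x - y|` is a prime.
   (b) EVERY interval `[b, b + H)` with `13 N / 24 ≤ b ≤ 9 N / 10` and `C D ≤ H ≤ N / C` contains at least
   `(1 / 8 - ε) H` integers `c` (a quarter of the even numbers) which have at least `N / (log N) ^ B`
   representations as a sum of two distinct primes.
   If in (a) only sets of multiples of `6` are considered, `1 / 8` can be replaced by `(2 - √3) / 2` in (b).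
2. (Limit.) The same with `p + |x - y|` prime for at least `x / (log x) ^ B` of the primes `p ≤ x` for
   arbitrarily large `x` in (a), and with all intervals `[b, b + H)`, `b` large, `C D ≤ H ≤ b / C` in (b).
   Here `D`, and so the length of the windows in (b), is a constant.
3. So if there are arbitrarily long gaps between the sums of two distinct primes, arbitrarily far to the
   right, then for any two sets `X`, `Y` of at least `C / ρ ^ E` even numbers all but `ρ |X| |Y|` of the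
   differences `x - y ≠ 0` are differences of two primes infinitely often.

Proof. Suppose that (a) fails. By the theorem of Kővári, Sós and Turán there are large sets `P < Q` with
`N / (log N) ^ B > ` number of the pairs for all differences between `P` and `Q`. The coloured Maynard-Tao
theorem with the constant `18 / 5 < 4` (starting files, `Pool.Agent.Y827.RO.lamRD`) for the four classes
`n + P`, `n + Q`, `β + P - n`, `β + Q - n` shows that for all even `β` (in one class modulo `3`) and almost all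
`x, y ∈ P`, `w, z ∈ Q` one of `β + x + y`, `β + x + z`, `β + w + y`, `β + w + z` is a good sum of two primes. As
`(x, z)` and `(y, w)` are independent, the proportions `p`, `r`, `s` of the pairs with a good value in
`P × P`, `P × Q`, `Q × Q` satisfy `(1 - r)² ≤ p + s + ε`; so `p + r + s ≥ 3 / 4 - ε`; average over `β`.
-/

set_option autoImplicit false

namespace Pool.Agent.Results.MP_7b7e48_nt.QuarterOrPolignac

open Filter

/-- The number of the primes `p ≤ x` for which `p + h` is a prime. -/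
noncomputable def pairs (h x : ℕ) : ℕ := {p : ℕ | p ≤ x ∧ p.Prime ∧ (p + h).Prime}.ncard

/-- The number of the primes `p` for which `c - p` is a prime different from `p`. -/
noncomputable def reps (c : ℕ) : ℕ := {p : ℕ | p.Prime ∧ ∃ q : ℕ, q.Prime ∧ q ≠ p ∧ p + q = c}.ncard

/-- `h` is a difference of two primes, for at least `x / (log x) ^ B` primes up to `x`, for arbitrarily
large `x`. -/
def Polignac (B h : ℕ) : Prop :=
  ∃ᶠ x : ℕ in atTop, (x : ℝ) / Real.log x ^ B ≤ (pairs h x : ℝ)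

/-- The moduli and the proportions in the theorem: `(2, 1 / 8)` and `(6, (2 - √3) / 2)`. -/
def Case (m : ℕ) (κ : ℝ) : Prop := (m = 2 ∧ κ = 1 / 8) ∨ (m = 6 ∧ κ = (2 - √3) / 2)

/-- `X` and `Y` are sets of multiples of `m` up to `D`, and both have at least `C / ρ ^ E` elements. -/
def LargeSets (m D C E : ℕ) (ρ : ℝ) (X Y : Finset ℕ) : Prop :=
  (∀ x ∈ X ∪ Y, m ∣ x ∧ x ≤ D) ∧ (C : ℝ) / ρ ^ E ≤ X.card ∧ (C : ℝ) / ρ ^ E ≤ Y.card

open Classical in
theorem difc_eq (N h : ℕ) : Pool.Agent.TH899.UG.GD.difc N h = pairs h (3 * N) := by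
  unfold Pool.Agent.TH899.UG.GD.difc pairs
  rw [← Set.ncard_coe_finset]
  congr 1
  ext p
  simp only [Finset.coe_filter, Finset.mem_Icc, Set.mem_ofPred_eq]
  constructor
  · rintro ⟨⟨h1, h2⟩, h3, h4⟩
    exact ⟨h2, h3, h4⟩
  · rintro ⟨h2, h3, h4⟩
    exact ⟨⟨h3.one_lt.le, h2⟩, h3, h4⟩

theorem reps_finite (c : ℕ) : {p : ℕ | p.Prime ∧ ∃ q : ℕ, q.Prime ∧ q ≠ p ∧ p + q = c}.Finite :=
  (Set.finite_Iic c).subset fun p hp => by
    obtain ⟨-, q, -, -, h⟩ := hp
    exact Set.mem_Iic.2 (by omega)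

open Classical in
theorem golc_le (N c : ℕ) : Pool.Agent.TH899.UG.GD.golc N (-1) (c : ℤ) ≤ reps c + 1 := by
  unfold Pool.Agent.TH899.UG.GD.golc reps
  rw [← Set.ncard_coe_finset]
  have hsub : (((Finset.Icc 1 (3 * N)).filter
      (fun p : ℕ => p.Prime ∧ (-1 * (p : ℤ) + (c : ℤ)).toNat.Prime) : Finset ℕ) : Set ℕ) ⊆
      insert (c / 2) {p : ℕ | p.Prime ∧ ∃ q : ℕ, q.Prime ∧ q ≠ p ∧ p + q = c} := by
    intro p hp
    obtain ⟨-, h1, h2⟩ := Finset.mem_filter.1 (Finset.mem_coe.1 hp)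
    have h3 := Pool.Agent.TH899.UG.GD.toNat_eq' h2
    by_cases h4 : (-1 * (p : ℤ) + (c : ℤ)).toNat = p
    · left
      omega
    · right
      exact ⟨h1, _, h2, h4, by omega⟩
  refine (Set.ncard_le_ncard hsub ((reps_finite c).insert _)).trans ?_
  exact Set.ncard_insert_le _ _

theorem log_ev (x : ℝ) : ∀ᶠ N : ℕ in atTop, x ≤ Real.log N :=
  (Real.tendsto_log_atTop.comp tendsto_natCast_atTop_atTop).eventually_ge_atTop _

theorem pow_ev (B : ℕ) : ∀ᶠ N : ℕ in atTop, 2 ≤ (N : ℝ) / Real.log N ^ B := by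
  have h1 : (fun x : ℝ => Real.log x ^ B) =o[atTop] (fun x : ℝ => x) := by
    have h := isLittleO_log_rpow_rpow_atTop (B : ℝ) (show (0 : ℝ) < 1 by norm_num)
    simpa using h
  have h2 : ∀ᶠ N : ℕ in atTop, ‖Real.log (N : ℝ) ^ B‖ ≤ 1 / 2 * ‖(N : ℝ)‖ :=
    tendsto_natCast_atTop_atTop.eventually (h1.bound (show (0 : ℝ) < 1 / 2 by norm_num))
  filter_upwards [h2, log_ev 1] with N h3 h4
  simp only [Real.norm_eq_abs, Nat.abs_cast] at h3
  have h5 : (0 : ℝ) < Real.log N ^ B := by positivity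
  rw [abs_of_pos h5] at h3
  rw [le_div_iff₀ h5]
  linarith

/-- the comparison of the thresholds -/
theorem thr (B : ℕ) : ∀ᶠ N : ℕ in atTop, ∀ b : ℕ, b ≤ N → N ≤ 2 * b →
    (b : ℝ) / Real.log b ^ (B + 2) + 1 ≤ (N : ℝ) / Real.log N ^ B := by
  filter_upwards [log_ev (4 * 2 ^ B + 4), pow_ev B, eventually_ge_atTop 4] with N h1 h2 h3
  intro b hb1 hb2
  have hb0 : (2 : ℝ) ≤ b := by exact_mod_cast (by omega : 2 ≤ b)
  have hN0 : (0 : ℝ) < N := by positivity
  have hlog2 : Real.log 2 ≤ 1 := by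
    have := Real.log_two_lt_d9
    linarith
  have hpow : (0 : ℝ) < 2 ^ B := by positivity
  have hlb : Real.log N ≤ Real.log b + 1 := by
    have h4 : Real.log N ≤ Real.log (2 * b) := Real.log_le_log hN0 (by exact_mod_cast hb2)
    rw [Real.log_mul (by norm_num) (by positivity)] at h4
    linarith
  have hlb2 : Real.log b ≤ Real.log N := Real.log_le_log (by linarith) (by exact_mod_cast hb1)
  have hb3 : 2 * 2 ^ B + 1 ≤ Real.log b := by nlinarith
  have hL : 0 < Real.log b := by linarith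
  have h5 : Real.log N ^ B ≤ 2 ^ B * Real.log b ^ B := by
    rw [← mul_pow]
    exact pow_le_pow_left₀ (by linarith) (by linarith) _
  have h6 : (b : ℝ) / Real.log b ^ (B + 2) ≤ (N : ℝ) / Real.log N ^ B / 2 := by
    rw [div_div, div_le_div_iff₀ (by positivity) (by
      have : 0 < Real.log N := by linarith
      positivity)]
    have h7 : Real.log N ^ B * 2 ≤ Real.log b ^ (B + 2) := by
      calc Real.log N ^ B * 2 ≤ 2 ^ B * Real.log b ^ B * 2 := by linarith
        _ = (2 * 2 ^ B) * Real.log b ^ B := by ring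
        _ ≤ Real.log b * Real.log b ^ B := by
            apply mul_le_mul_of_nonneg_right _ (by positivity)
            linarith
        _ = Real.log b ^ (B + 1) := by ring
        _ ≤ Real.log b ^ (B + 2) := pow_le_pow_right₀ (by linarith) (by omega)
    have h8 : (b : ℝ) ≤ N := by exact_mod_cast hb1
    calc (b : ℝ) * (Real.log N ^ B * 2) ≤ b * Real.log b ^ (B + 2) :=
          mul_le_mul_of_nonneg_left h7 (by linarith)
      _ ≤ N * Real.log b ^ (B + 2) := mul_le_mul_of_nonneg_right h8 (by positivity)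
  linarith

/-- the implication for the good integers -/
theorem good (B : ℕ) : ∀ᶠ N : ℕ in atTop, ∀ b : ℕ, b ≤ N → N ≤ 2 * b → ∀ c : ℕ,
    (N : ℝ) / Real.log N ^ B ≤ Pool.Agent.TH899.UG.GD.golc N (-1) (c : ℤ) →
    (b : ℝ) / Real.log b ^ (B + 2) ≤ reps c := by
  filter_upwards [thr B] with N hN
  intro b hb1 hb2 c hc
  have h1 := hN b hb1 hb2
  have h2 : (Pool.Agent.TH899.UG.GD.golc N (-1) (c : ℤ) : ℝ) ≤ reps c + 1 := by
    exact_mod_cast golc_le N c
  linarith

/-- the implication for the pairs -/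
theorem thr3 (B : ℕ) : ∀ᶠ N : ℕ in atTop,
    ((3 * N : ℕ) : ℝ) / Real.log ((3 * N : ℕ) : ℝ) ^ (B + 2) ≤ (N : ℝ) / Real.log N ^ B ∧
    (N : ℝ) / Real.log N ^ (B + 2) ≤ (N : ℝ) / Real.log N ^ B := by
  filter_upwards [log_ev 3, eventually_ge_atTop 1] with N h1 h2
  have hN0 : (1 : ℝ) ≤ N := by exact_mod_cast h2
  have hl : Real.log N ≤ Real.log ((3 * N : ℕ) : ℝ) :=
    Real.log_le_log (by linarith) (by push_cast; linarith)
  have hL : 0 < Real.log N := by linarith
  have hL3 : 0 < Real.log ((3 * N : ℕ) : ℝ) := by linarith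
  constructor
  · rw [div_le_div_iff₀ (by positivity) (by positivity)]
    have h3 : 3 * Real.log N ^ B ≤ Real.log ((3 * N : ℕ) : ℝ) ^ (B + 2) := by
      calc 3 * Real.log N ^ B ≤ Real.log N * Real.log N ^ B := by
            apply mul_le_mul_of_nonneg_right h1 (by positivity)
        _ = Real.log N ^ (B + 1) := by ring
        _ ≤ Real.log N ^ (B + 2) := pow_le_pow_right₀ (by linarith) (by omega)
        _ ≤ _ := pow_le_pow_left₀ hL.le hl _
    have h4 := mul_le_mul_of_nonneg_left h3 (show (0 : ℝ) ≤ N by linarith)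
    push_cast at h4 ⊢
    linarith
  · apply div_le_div_of_nonneg_left (by linarith) (by positivity)
    exact pow_le_pow_right₀ (by linarith) (by omega)

/-- counting by `ncard` and by `card` -/
theorem good_card (b H : ℕ) (P Q : ℕ → Prop) [DecidablePred P] (h : ∀ c, P c → Q c) :
    (((Finset.Ico b (b + H)).filter P).card : ℝ) ≤ ({c : ℕ | b ≤ c ∧ c < b + H ∧ Q c}.ncard : ℝ) := by
  rw [← Set.ncard_coe_finset, Nat.cast_le]
  refine Set.ncard_le_ncard ?_ ?_
  · intro c hc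
    obtain ⟨h1, h2⟩ := Finset.mem_filter.1 (Finset.mem_coe.1 hc)
    obtain ⟨h3, h4⟩ := Finset.mem_Ico.1 h1
    exact ⟨h3, h4, h c h2⟩
  · exact (Set.finite_Iio (b + H)).subset fun c hc => hc.2.1

theorem bad_card (X Y : Finset ℕ) (P Q : ℕ × ℕ → Prop) [DecidablePred Q] (h : ∀ z ∈ X ×ˢ Y, P z → Q z) :
    ({z : ℕ × ℕ | z.1 ∈ X ∧ z.2 ∈ Y ∧ P z}.ncard : ℝ) ≤ (((X ×ˢ Y).filter Q).card : ℝ) := by
  rw [← Set.ncard_coe_finset, Nat.cast_le]
  refine Set.ncard_le_ncard ?_ (Finset.finite_toSet _)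
  rintro z ⟨h1, h2, h3⟩
  have hz : z ∈ X ×ˢ Y := Finset.mem_product.2 ⟨h1, h2⟩
  exact Finset.mem_coe.2 (Finset.mem_filter.2 ⟨hz, h z hz h3⟩)

/-- **The dichotomy, at every scale and in the limit.** -/
theorem dichotomy (ε : ℝ) (hε : 0 < ε) : ∃ B C E : ℕ,
    -- (1) every scale
    (∀ᶠ N : ℕ in atTop, ∀ D : ℕ, C * D ≤ N → ∀ (m : ℕ) (κ : ℝ), Case m κ →
      (∀ (ρ : ℝ) (X Y : Finset ℕ), 0 < ρ → ρ ≤ 1 → LargeSets m D C E ρ X Y →
        ({z : ℕ × ℕ | z.1 ∈ X ∧ z.2 ∈ Y ∧ z.1 ≠ z.2 ∧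
          (pairs (Nat.dist z.1 z.2) (3 * N) : ℝ) < N / Real.log N ^ B}.ncard : ℝ) ≤
          ρ * (X.card * Y.card)) ∨
      (∀ b H : ℕ, 13 * N ≤ 24 * b → 10 * b ≤ 9 * N → C * D ≤ H → C * H ≤ N →
        (κ - ε) * H ≤ ({c : ℕ | b ≤ c ∧ c < b + H ∧ (N : ℝ) / Real.log N ^ B ≤ reps c}.ncard : ℝ))) ∧
    -- (2) the limit
    (∀ (D m : ℕ) (κ : ℝ), Case m κ →
      (∀ (ρ : ℝ) (X Y : Finset ℕ), 0 < ρ → ρ ≤ 1 → LargeSets m D C E ρ X Y →
        ({z : ℕ × ℕ | z.1 ∈ X ∧ z.2 ∈ Y ∧ z.1 ≠ z.2 ∧ ¬ Polignac B (Nat.dist z.1 z.2)}.ncard : ℝ) ≤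
          ρ * (X.card * Y.card)) ∨
      (∀ᶠ b : ℕ in atTop, ∀ H : ℕ, C * D ≤ H → C * H ≤ b →
        (κ - ε) * H ≤ ({c : ℕ | b ≤ c ∧ c < b + H ∧ (b : ℝ) / Real.log b ^ B ≤ reps c}.ncard : ℝ))) := by
  classical
  obtain ⟨B, C, E, hM⟩ := Pool.Agent.U849.GP.main ε hε
  refine ⟨B + 2, C, E, ?_, ?_⟩
  · filter_upwards [hM, good B, thr3 B] with N hN hg h3
    intro D hCD m κ hκ
    rcases hN D hCD m κ hκ with h | h
    · left
      intro ρ X Y hρ0 hρ1 hL
      refine le_trans ?_ (h X Y ρ hL.1 hρ0 hρ1 hL.2.1 hL.2.2)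
      refine bad_card X Y _ _ ?_
      rintro z - ⟨h4, h5⟩
      refine ⟨h4, ?_⟩
      rw [difc_eq]
      exact lt_of_lt_of_le h5 h3.2
    · right
      intro b H h1 h2 h4 h5
      refine (h b H h1 h2 h4 h5).trans (good_card b H _ _ fun c hc => ?_)
      exact hg N le_rfl (by omega) c hc
  · intro D m κ hκ
    by_cases hcon : ∀ᶠ b : ℕ in atTop, ∀ H : ℕ, C * D ≤ H → C * H ≤ b →
        (κ - ε) * H ≤ ({c : ℕ | b ≤ c ∧ c < b + H ∧
          (b : ℝ) / Real.log b ^ (B + 2) ≤ reps c}.ncard : ℝ)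
    · exact Or.inr hcon
    left
    rw [not_eventually] at hcon
    intro ρ X Y hρ0 hρ1 hL
    -- for large `N`
    have hP : ∀ᶠ N : ℕ in atTop, ∀ h ∈ Finset.range (D + 1), ¬ Polignac (B + 2) h →
        (pairs h (3 * N) : ℝ) < N / Real.log N ^ B := by
      rw [Filter.eventually_all_finset]
      intro h _
      by_cases hh : Polignac (B + 2) h
      · exact Eventually.of_forall fun N h1 => absurd hh h1
      have h1 : ∀ᶠ x : ℕ in atTop, (pairs h x : ℝ) < (x : ℝ) / Real.log x ^ (B + 2) := by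
        have h2 := not_frequently.1 hh
        filter_upwards [h2] with x hx
        exact not_le.1 hx
      have h3 : Tendsto (fun N : ℕ => 3 * N) atTop atTop :=
        tendsto_atTop_mono (fun N => by show N ≤ 3 * N; omega) tendsto_id
      filter_upwards [h3.eventually h1, thr3 B] with N h4 h5 _
      exact lt_of_lt_of_le h4 h5.1
    have hT : Tendsto (fun b : ℕ => 3 * b / 2) atTop atTop :=
      tendsto_atTop_mono (fun b => by show b ≤ 3 * b / 2; omega) tendsto_id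
    have hev := hM.and (hP.and (good B))
    obtain ⟨b, hb, ⟨hN, hPN, hg⟩, hb4, hbD⟩ := (hcon.and_eventually ((hT.eventually hev).and
      ((eventually_ge_atTop 4).and (eventually_ge_atTop (C * D))))).exists
    push Not at hb
    obtain ⟨H, hH1, hH2, hH3⟩ := hb
    rcases hN D (by omega) m κ hκ with h | h
    · refine le_trans ?_ (h X Y ρ hL.1 hρ0 hρ1 hL.2.1 hL.2.2)
      refine bad_card X Y _ _ ?_
      rintro z hz ⟨h4, h5⟩
      refine ⟨h4, ?_⟩
      rw [difc_eq]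
      refine hPN _ ?_ h5
      obtain ⟨h6, h7⟩ := Finset.mem_product.1 hz
      have h8 := (hL.1 z.1 (Finset.mem_union_left _ h6)).2
      have h9 := (hL.1 z.2 (Finset.mem_union_right _ h7)).2
      rw [Finset.mem_range]
      unfold Nat.dist
      omega
    · exfalso
      have h1 := (h b H (by omega) (by omega) hH1 (by omega)).trans (good_card b H _
        (fun c => (b : ℝ) / Real.log b ^ (B + 2) ≤ reps c)
        fun c hc => hg b (by omega) (by omega) c hc)
      exact absurd h1 (not_le.2 hH3)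

theorem result :
    -- the dichotomy
    (∀ ε : ℝ, 0 < ε → ∃ B C E : ℕ,
      -- (1) every scale
      (∀ᶠ N : ℕ in atTop, ∀ D : ℕ, C * D ≤ N → ∀ (m : ℕ) (κ : ℝ), Case m κ →
        (∀ (ρ : ℝ) (X Y : Finset ℕ), 0 < ρ → ρ ≤ 1 → LargeSets m D C E ρ X Y →
          ({z : ℕ × ℕ | z.1 ∈ X ∧ z.2 ∈ Y ∧ z.1 ≠ z.2 ∧
            (pairs (Nat.dist z.1 z.2) (3 * N) : ℝ) < N / Real.log N ^ B}.ncard : ℝ) ≤
            ρ * (X.card * Y.card)) ∨
        (∀ b H : ℕ, 13 * N ≤ 24 * b → 10 * b ≤ 9 * N → C * D ≤ H → C * H ≤ N →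
          (κ - ε) * H ≤ ({c : ℕ | b ≤ c ∧ c < b + H ∧ (N : ℝ) / Real.log N ^ B ≤ reps c}.ncard : ℝ))) ∧
      -- (2) the limit
      (∀ (D m : ℕ) (κ : ℝ), Case m κ →
        (∀ (ρ : ℝ) (X Y : Finset ℕ), 0 < ρ → ρ ≤ 1 → LargeSets m D C E ρ X Y →
          ({z : ℕ × ℕ | z.1 ∈ X ∧ z.2 ∈ Y ∧ z.1 ≠ z.2 ∧ ¬ Polignac B (Nat.dist z.1 z.2)}.ncard : ℝ) ≤
            ρ * (X.card * Y.card)) ∨
        (∀ᶠ b : ℕ in atTop, ∀ H : ℕ, C * D ≤ H → C * H ≤ b →
          (κ - ε) * H ≤
            ({c : ℕ | b ≤ c ∧ c < b + H ∧ (b : ℝ) / Real.log b ^ B ≤ reps c}.ncard : ℝ)))) ∧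
    -- (3) long gaps between the sums of two distinct primes
    (∃ B C E : ℕ, (∀ H : ℕ, ∃ᶠ b : ℕ in atTop, ∀ c : ℕ, b ≤ c → c < b + H →
        ¬ ∃ p q : ℕ, p.Prime ∧ q.Prime ∧ p ≠ q ∧ p + q = c) →
      ∀ (ρ : ℝ) (X Y : Finset ℕ), 0 < ρ → ρ ≤ 1 → (∀ x ∈ X ∪ Y, Even x) →
        (C : ℝ) / ρ ^ E ≤ X.card → (C : ℝ) / ρ ^ E ≤ Y.card →
        ({z : ℕ × ℕ | z.1 ∈ X ∧ z.2 ∈ Y ∧ z.1 ≠ z.2 ∧ ¬ Polignac B (Nat.dist z.1 z.2)}.ncard : ℝ) ≤
          ρ * (X.card * Y.card)) := by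
  refine ⟨dichotomy, ?_⟩
  obtain ⟨B, C, E, -, h2⟩ := dichotomy (1 / 16) (by norm_num)
  refine ⟨B, C, E, fun hgap ρ X Y hρ0 hρ1 heven hXc hYc => ?_⟩
  set D : ℕ := (X ∪ Y).sup id with hD
  have hXY : LargeSets 2 D C E ρ X Y :=
    ⟨fun x hx => ⟨(heven x hx).two_dvd, Finset.le_sup (f := id) hx⟩, hXc, hYc⟩
  rcases h2 D 2 (1 / 8) (Or.inl ⟨rfl, rfl⟩) with h | h
  · exact h ρ X Y hρ0 hρ1 hXY
  exfalso
  set H : ℕ := C * D + 1 with hH
  obtain ⟨b, hb1, hb2, hb3, hb4⟩ := ((hgap H).and_eventually (h.and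
    ((eventually_ge_atTop (C * H)).and (eventually_ge_atTop 3)))).exists
  have h3 := hb2 H (by omega) hb3
  have h4 : {c : ℕ | b ≤ c ∧ c < b + H ∧ (b : ℝ) / Real.log b ^ B ≤ reps c} = ∅ := by
    rw [Set.eq_empty_iff_forall_notMem]
    rintro c ⟨h5, h6, h7⟩
    have hb0 : (3 : ℝ) ≤ b := by exact_mod_cast hb4
    have hlog : 0 < Real.log b := Real.log_pos (by linarith)
    have h8 : (0 : ℝ) < reps c := lt_of_lt_of_le (by positivity) h7
    have h9 : 0 < reps c := by exact_mod_cast h8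
    obtain ⟨p, hp, q, hq, hqp, hpq⟩ := Set.nonempty_of_ncard_ne_zero (Nat.pos_iff_ne_zero.1 h9)
    exact hb1 c h5 h6 ⟨p, q, hp, hq, fun h => hqp h.symm, hpq⟩
  rw [h4, Set.ncard_empty, Nat.cast_zero] at h3
  have h5 : (0 : ℝ) < H := by
    rw [hH]; positivity
  nlinarith

end Pool.Agent.Results.MP_7b7e48_nt.QuarterOrPolignac
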